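import Pool.Agent.Helper5.SX.St

set_option autoImplicit false

namespace Pool.Agent.Helper91.SX

open _root_.SX
open Finset
open scoped Classical

private lemma eps_FNB (c : ℝ) (h1 : (3 + Real.sqrt 5) / 2 < c) (h2 : c ≤ 27 / 10) :
    ∃ ε : ℝ, 0 < ε ∧ ε < 1 / 100 ∧ 13 / 5 < c ∧
      5 + 2 * ε + max (1 / 3) ((1 + ε) / ((c - ε) * (c - 2 - 2 * ε))) * (3 - c) ≤ 2 * c := by
  have hs0 : 0 ≤ Real.sqrt 5 := Real.sqrt_nonneg 5
  have hs2 : Real.sqrt 5 ^ 2 = 5 := Real.sq_sqrt (by norm_num)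
  have hs3 : 11 / 5 < Real.sqrt 5 := by
    rw [Real.lt_sqrt (by norm_num)]
    norm_num
  have hc : 13 / 5 < c := by linarith
  have hq : 0 < c ^ 2 - 3 * c + 1 := by
    have e1 : c ^ 2 - 3 * c + 1 = (c - (3 + Real.sqrt 5) / 2) * (c - (3 - Real.sqrt 5) / 2) := by
      ring_nf
      rw [hs2]
      ring
    rw [e1]
    refine mul_pos (by linarith) (by linarith)
  have hcc : 0 < c * (c - 2) := mul_pos (by linarith) (by linarith)
  have hf2 : 5 + 2 * 0 + (1 + 0) / ((c - 0) * (c - 2 - 2 * 0)) * (3 - c) < 2 * c := by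
    have e1 : (5 : ℝ) + 2 * 0 + (1 + 0) / ((c - 0) * (c - 2 - 2 * 0)) * (3 - c) =
        5 + (3 - c) / (c * (c - 2)) := by
      simp only [mul_zero, add_zero, sub_zero]
      ring
    rw [e1]
    have e2 : (3 - c) / (c * (c - 2)) < 2 * c - 5 := by
      rw [div_lt_iff₀ hcc]
      have e3 : (2 * c - 5) * (c * (c - 2)) - (3 - c) = (c ^ 2 - 3 * c + 1) * (2 * c - 3) := by ring
      have e4 : 0 < (c ^ 2 - 3 * c + 1) * (2 * c - 3) := mul_pos hq (by linarith)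
      linarith
    linarith
  have hf1 : 5 + 2 * 0 + (1 / 3) * (3 - c) < 2 * c := by linarith
  have hden : (c - 0) * (c - 2 - 2 * 0) ≠ 0 := by
    simp only [mul_zero, sub_zero]
    exact hcc.ne'
  have hcont2 : ContinuousAt (fun ε : ℝ => 5 + 2 * ε +
      (1 + ε) / ((c - ε) * (c - 2 - 2 * ε)) * (3 - c)) 0 := by
    have hd : ContinuousAt (fun ε : ℝ => (1 + ε) / ((c - ε) * (c - 2 - 2 * ε))) 0 :=
      ContinuousAt.div (by fun_prop) (by fun_prop) hden
    exact (by fun_prop : ContinuousAt (fun ε : ℝ => 5 + 2 * ε) 0).add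
      (hd.mul continuousAt_const)
  have hcont1 : ContinuousAt (fun ε : ℝ => 5 + 2 * ε + (1 / 3) * (3 - c)) 0 := by fun_prop
  have ev2 := (hcont2.eventually (gt_mem_nhds hf2)).filter_mono
    (nhdsWithin_le_nhds (s := Set.Ioi (0 : ℝ)))
  have ev1 := (hcont1.eventually (gt_mem_nhds hf1)).filter_mono
    (nhdsWithin_le_nhds (s := Set.Ioi (0 : ℝ)))
  have ev3 : ∀ᶠ ε in nhdsWithin (0 : ℝ) (Set.Ioi 0), ε < 1 / 100 :=
    (gt_mem_nhds (by norm_num : (0 : ℝ) < 1 / 100)).filter_mono nhdsWithin_le_nhds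
  obtain ⟨ε, ⟨⟨h3, h4⟩, h5⟩, h6⟩ := (((ev1.and ev2).and ev3).and self_mem_nhdsWithin).exists
  refine ⟨ε, h6, h5, hc, ?_⟩
  rcases max_choice (1 / 3 : ℝ) ((1 + ε) / ((c - ε) * (c - 2 - 2 * ε))) with h | h
  · rw [h]
    exact h3.le
  · rw [h]
    exact h4.le

theorem hFNB : StFNA → StFNB := by
  intro hFNA c0 hc0
  obtain ⟨c, hc⟩ : ∃ c : ℝ, c = min c0 (27 / 10) := ⟨_, rfl⟩
  have hcc0 : c ≤ c0 := by rw [hc]; exact min_le_left _ _
  have hc27 : c ≤ 27 / 10 := by rw [hc]; exact min_le_right _ _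
  have hcl : (3 + Real.sqrt 5) / 2 < c := by
    rw [hc]
    refine lt_min hc0 ?_
    have : Real.sqrt 5 < 12 / 5 := by
      rw [Real.sqrt_lt' (by norm_num)]
      norm_num
    linarith
  obtain ⟨ε, hε0, hε1, hc26, hmain⟩ := eps_FNB c hcl hc27
  obtain ⟨ρ, hρ⟩ : ∃ ρ : ℝ, ρ = max (1 / 3) ((1 + ε) / ((c - ε) * (c - 2 - 2 * ε))) := ⟨_, rfl⟩
  rw [← hρ] at hmain
  have hρ1 : 1 / 3 ≤ ρ := by rw [hρ]; exact le_max_left _ _
  have hρ2 : (1 + ε) / ((c - ε) * (c - 2 - 2 * ε)) ≤ ρ := by rw [hρ]; exact le_max_right _ _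
  have hd1 : 0 < c - ε := by linarith
  have hd2 : 0 < c - 2 - 2 * ε := by linarith
  have hρ3 : 1 + ε ≤ ρ * ((c - ε) * (c - 2 - 2 * ε)) := by
    rwa [div_le_iff₀ (mul_pos hd1 hd2)] at hρ2
  refine ⟨10 + 100 / ε + 100 / ε ^ 2, by positivity, ?_⟩
  intro D k hk
  have hi1 : 0 < 1 / ε := by positivity
  have hi2 : 0 < 1 / ε ^ 2 := by positivity
  have hD0 : (0 : ℝ) ≤ D := Nat.cast_nonneg D
  have hC0 : (10 : ℝ) + 100 / ε + 100 / ε ^ 2 = 10 + 100 * (1 / ε) + 100 * (1 / ε ^ 2) := by ring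
  rw [hC0] at hk
  have hkc : c * D + 10 + 100 * (1 / ε) + 100 * (1 / ε ^ 2) ≤ k := by
    have : c * D ≤ c0 * D := mul_le_mul_of_nonneg_right hcc0 hD0
    linarith
  rcases Nat.lt_or_ge (3 * D) k with hcase | hcase
  · refine ⟨0, 0, by omega, ?_⟩
    intro S G T q sg r h l n a v hN
    have h1 := hN.ful
    have h2 := hN.nct
    have h3 := hN.siw
    have h4 : 0 < S.card := Finset.card_pos.2 hN.ne
    have h5 : k * S.card ≤ 3 * D * S.card := by
      have h6 : q ≤ sg := by omega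
      have h7 : sg ≤ D * S.card := by omega
      calc k * S.card ≤ 2 * D * S.card + q := h1
        _ ≤ 2 * D * S.card + D * S.card := by omega
        _ = 3 * D * S.card := by ring
    have := Nat.le_of_mul_le_mul_right h5 h4
    omega
  · have hkD : (k : ℝ) ≤ 3 * D := by exact_mod_cast hcase
    have hDpos : (0 : ℝ) < D := by
      have : (0 : ℝ) ≤ c * D := by positivity
      linarith
    have hDn : 0 < D := by exact_mod_cast hDpos
    obtain ⟨t0, ht0⟩ : ∃ t0 : ℕ, t0 = ⌊ε * D⌋₊ := ⟨_, rfl⟩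
    have ht1 : (t0 : ℝ) ≤ ε * D := by rw [ht0]; exact Nat.floor_le (by positivity)
    have ht2 : ε * D < (t0 : ℝ) + 1 := by rw [ht0]; exact Nat.lt_floor_add_one _
    have ht0' : (0 : ℝ) ≤ t0 := Nat.cast_nonneg _
    have hεD : ε * D ≤ 1 / 100 * D := mul_le_mul_of_nonneg_right hε1.le hD0
    have hcD : 13 / 5 * (D : ℝ) ≤ c * D := mul_le_mul_of_nonneg_right hc26.le hD0
    have hlt : 2 * D + t0 + (t0 + 1) < k := by
      have : (2 : ℝ) * D + t0 + (t0 + 1) < k := by linarith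
      exact_mod_cast this
    refine ⟨t0, t0 + 1, hlt, ?_⟩
    intro S G T q sg r h l n a v hN
    have hres := hFNA D k t0 (t0 + 1) S G T q sg r h l n a v ρ hN hDn (by omega) hcase hlt hρ1 (by
      intro x hx
      push_cast at hx
      have hx1 : (c - ε) * D ≤ x := by linarith
      have hx2 : (c - 2 - 2 * ε) * D ≤ x - D - (D + t0) := by linarith
      have hx3 : (c - ε) * D * ((c - 2 - 2 * ε) * D) ≤ x * (x - D - (D + t0)) :=
        mul_le_mul hx1 hx2 (by positivity) (le_trans (by positivity) hx1)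
      calc ((D : ℝ) + t0) * D ≤ ((1 + ε) * D) * D :=
            mul_le_mul_of_nonneg_right (by linarith) hD0
        _ ≤ ((ρ * ((c - ε) * (c - 2 - 2 * ε))) * D) * D :=
            mul_le_mul_of_nonneg_right (mul_le_mul_of_nonneg_right hρ3 hD0) hD0
        _ = ρ * ((c - ε) * D * ((c - 2 - 2 * ε) * D)) := by ring
        _ ≤ ρ * (x * (x - D - (D + t0))) := mul_le_mul_of_nonneg_left hx3 (by linarith))
    push_cast at hres
    have hT0 : (0 : ℝ) < (t0 : ℝ) + 1 := by linarith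
    have hsplit : (k : ℝ) * (t0 + 1 + D) / ((t0 + 1) * (t0 + 1)) =
        k / (t0 + 1) + k * D / ((t0 + 1) * (t0 + 1)) := by
      field_simp
    have hεT : 0 < ε * D := by positivity
    have hs1 : (k : ℝ) / (t0 + 1) ≤ 3 * (1 / ε) := by
      rw [div_le_iff₀ hT0]
      calc (k : ℝ) ≤ 3 * D := hkD
        _ = 3 * (1 / ε) * (ε * D) := by field_simp
        _ ≤ 3 * (1 / ε) * (t0 + 1) := mul_le_mul_of_nonneg_left ht2.le (by positivity)
    have hs2 : (k : ℝ) * D / ((t0 + 1) * (t0 + 1)) ≤ 3 * (1 / ε ^ 2) := by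
      rw [div_le_iff₀ (mul_pos hT0 hT0)]
      calc (k : ℝ) * D ≤ 3 * D * D := mul_le_mul_of_nonneg_right hkD hD0
        _ = 3 * (1 / ε ^ 2) * ((ε * D) * (ε * D)) := by field_simp
        _ ≤ 3 * (1 / ε ^ 2) * ((t0 + 1) * (t0 + 1)) :=
            mul_le_mul_of_nonneg_left (mul_le_mul ht2.le ht2.le hεT.le hT0.le) (by positivity)
    have hs3 : ρ * (3 * D - k) ≤ ρ * ((3 - c) * D) := by
      refine mul_le_mul_of_nonneg_left ?_ (by linarith)
      linarith
    have hs4 : (5 + 2 * ε + ρ * (3 - c)) * D ≤ 2 * c * D := mul_le_mul_of_nonneg_right hmain hD0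
    rw [hsplit] at hres
    nlinarith

end Pool.Agent.Helper91.SX
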